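import Pool.Agent.Q296.PGap.Main

/-!
# Pseudo spectral gap of the lazy version of an ergodic chain

For every ergodic transition matrix `M` on `d ≥ 2` states with stationary distribution `π`, and
every `α ∈ (0,1)`, the pseudo spectral gap of `αI + (1-α)M` is at least `(1-α)/9` times that of
`M`. So the answer to the question is positive with `f(α, g) = (1-α) g / 9`, which does not depend
on the number of states.
-/

namespace Pool.Agent.Results.MP_67c61c_pr.LazyPseudoGap

open Q296.PGap

theorem result :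
    ∃ f : ℝ → ℝ → ℝ,
      (∀ α g : ℝ, f α g = (1 - α) * g / 9) ∧
      (∀ α g : ℝ, 0 < α → α < 1 → 0 < g → g ≤ 1 → 0 < f α g) ∧
      ∀ d : ℕ, 2 ≤ d → ∀ M : Matrix (Fin d) (Fin d) ℝ, IsErgodic M →
        ∀ π : Fin d → ℝ, IsStationary π M → ∀ α : ℝ, 0 < α → α < 1 →
          IsGreatest (gapSet π M) (pseudoGap π M) ∧
          IsGreatest (gapSet π (lazy α M)) (pseudoGap π (lazy α M)) ∧
          f α (pseudoGap π M) ≤ pseudoGap π (lazy α M) := by
  refine ⟨fun α g => (1 - α) * g / 9, fun _ _ => rfl, ?_, ?_⟩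
  · intro α g _ h1 hg _
    have : 0 < 1 - α := by linarith
    positivity
  · intro d hd M hM π hπ α h0 h1
    obtain ⟨hpos, hG⟩ := stationary_pos hM hπ
    have hn : 1 < Fintype.card (Fin d) := by rw [Fintype.card_fin]; omega
    refine ⟨isGreatest hpos hn hG, isGreatest hpos hn (hG.lazy h0.le h1.le), ?_⟩
    have := main_ineq hpos hn hG h0.le h1
    calc (1 - α) * pseudoGap π M / 9 = (1 - α) / 9 * pseudoGap π M := by ring
      _ ≤ _ := this

end Pool.Agent.Results.MP_67c61c_pr.LazyPseudoGap
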